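import Pool.Agent.T9h94.Iso.Build

/-!
# The reduction is computable in polynomial time
-/

set_option autoImplicit false

namespace Pool.Agent.NPC.T9h75Iso

open Pool.Agent.NPC Pool.Agent.NPC.ER Pool.Agent.NPC.H612 Pool.Agent.T9h94.Iso
open Pool.Agent.NPC.R537HD (numT sqT subT poly_con_vars' upoly_Gx poly_sqT poly_subT poly_numT)
open Pool.Agent.R537.RN (Gx kap)

section

variable {α β γ : Type} [TEnc α] [TEnc β] [TEnc γ]

/-! ### Contexts -/

/-- A function of the first component. -/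
theorem up {f : α → β} (hf : Poly f) : Poly (fun q : α × γ => f q.1) :=
  hf.comp (Poly.fst Poly.id)

/-- The second component. -/
theorem sn : Poly (fun q : α × γ => q.2) := Poly.snd Poly.id

/-- A function of the first component. -/
theorem uup {n : α → ℕ} (hn : UPoly n) : UPoly (fun q : α × γ => n q.1) :=
  hn.comp (Poly.fst Poly.id)

/-! ### Pairs of terms -/

theorem poly_replU {t : α → β} (ht : Poly t) {d : α → ℕ} (hd : UPoly d) :
    Poly (fun a => List.replicate (d a) (t a)) := by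
  refine (Poly.map (F := fun a (_ : ℕ) => t a) hd.range (up ht)).congr fun a => ?_
  simp

theorem poly_dcst {t : α → Tm} (ht : Poly t) : Poly (fun a => dcst (t a)) :=
  Poly.pair ht (Poly.const _)

theorem poly_dadd {s t : α → P2} (hs : Poly s) (ht : Poly t) :
    Poly (fun a => dadd (s a) (t a)) :=
  Poly.pair (poly_tadd (Poly.fst hs) (Poly.fst ht)) (poly_tadd (Poly.snd hs) (Poly.snd ht))

theorem poly_dsub {s t : α → P2} (hs : Poly s) (ht : Poly t) :
    Poly (fun a => dsub (s a) (t a)) :=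
  Poly.pair (poly_subT (Poly.fst hs) (Poly.fst ht)) (poly_subT (Poly.snd hs) (Poly.snd ht))

theorem poly_dmul {s t : α → P2} (hs : Poly s) (ht : Poly t) :
    Poly (fun a => dmul (s a) (t a)) :=
  Poly.pair (poly_tmul (Poly.fst hs) (Poly.fst ht))
    (poly_tadd (poly_tmul (Poly.fst hs) (Poly.snd ht)) (poly_tmul (Poly.snd hs) (Poly.fst ht)))

theorem poly_dsq {s : α → P2} (hs : Poly s) : Poly (fun a => dsq (s a)) := poly_dmul hs hs

theorem poly_dsum {l : α → List P2} (hl : Poly l) : Poly (fun a => dsum (l a)) :=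
  Poly.pair (poly_sumT (Poly.map (F := fun _ t => Prod.fst t) hl (Poly.fst sn)))
    (poly_sumT (Poly.map (F := fun _ t => Prod.snd t) hl (Poly.snd sn)))

theorem poly_dsumR {n : α → ℕ} (hn : UPoly n) {F : α → ℕ → P2}
    (hF : Poly (fun q : α × ℕ => F q.1 q.2)) :
    Poly (fun a => dsum ((List.range (n a)).map (F a))) :=
  poly_dsum (Poly.map (F := F) hn.range hF)

theorem poly_tpow {t : α → Tm} (ht : Poly t) {d : α → ℕ} (hd : UPoly d) :
    Poly (fun a => tpow (t a) (d a)) := poly_prodT (poly_replU ht hd)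

theorem poly_dpow {t : α → P2} (ht : Poly t) {d : α → ℕ} (hd : UPoly d) :
    Poly (fun a => dpow (t a) (d a)) :=
  Poly.pair (poly_tpow (Poly.fst ht) hd) (poly_tmul (poly_tmul (poly_numT hd.toPoly)
    (poly_tpow (Poly.fst ht) (UPoly.of_le (Poly.sub hd.toPoly (Poly.const 1)) hd
      fun _ => Nat.sub_le _ _))) (Poly.snd ht))

/-! ### The sizes -/

theorem upoly_kp {l s : α → ℕ} (hl : UPoly l) (hs : UPoly s) : UPoly (fun a => kp (l a) (s a)) :=
  upoly_Gx hl (UPoly.add hs (UPoly.const 4))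

theorem upoly_qd {l s : α → ℕ} (hl : UPoly l) (hs : UPoly s) : UPoly (fun a => qd (l a) (s a)) :=
  UPoly.add (UPoly.add hl hs) (UPoly.const 2)

theorem upoly_q1 {n l s : α → ℕ} (hn : UPoly n) (hl : UPoly l) (hs : UPoly s) :
    UPoly (fun a => q1 (n a) (l a) (s a)) :=
  upoly_Gx hn (upoly_Gx (UPoly.add hl (UPoly.const 1))
    (UPoly.add (UPoly.add (upoly_kp hl hs) hs) (UPoly.const 6)))

theorem upoly_q2 {n l s u : α → ℕ} (hn : UPoly n) (hl : UPoly l) (hs : UPoly s) (hu : UPoly u) :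
    UPoly (fun a => q2 (n a) (l a) (s a) (u a)) :=
  upoly_Gx hn (upoly_Gx (UPoly.add hl (UPoly.const 1))
    (UPoly.add (UPoly.add (UPoly.add hu (upoly_kp hl hs)) hs) (UPoly.const 6)))

theorem upoly_u1 {n l s : α → ℕ} (hn : UPoly n) (hl : UPoly l) (hs : UPoly s) :
    UPoly (fun a => u1 (n a) (l a) (s a)) :=
  UPoly.add (UPoly.add (UPoly.add (UPoly.add (upoly_q1 hn hl hs) (upoly_kp hl hs))
    (upoly_qd hl (upoly_kp hl hs))) hn) (UPoly.const 5)

theorem upoly_u2 {n l s : α → ℕ} (hn : UPoly n) (hl : UPoly l) (hs : UPoly s) :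
    UPoly (fun a => u2 (n a) (l a) (s a)) :=
  upoly_q2 hn hl hs (upoly_u1 hn hl hs)

end

section

variable {α : Type} [TEnc α] {p : α → Inp} (hp : Poly p)

include hp

theorem poly_nS : Poly (fun a => nS (p a)) := poly_sysOf (poly_fnot (Poly.snd hp))

theorem poly_vS : Poly (fun a => vS (p a)) :=
  Poly.flatMap (F := fun _ c => Con.vars c) (poly_nS hp) (poly_con_vars' (Poly.snd Poly.id))

theorem upoly_dn : UPoly (fun a => dn (p a)) := UPoly.length (Poly.fst hp)

theorem upoly_dl : UPoly (fun a => dl (p a)) :=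
  UPoly.add (UPoly.length (poly_vS hp)) (UPoly.const 1)

theorem upoly_ds : UPoly (fun a => ds (p a)) := UPoly.length (poly_nS hp)

theorem upoly_dk : UPoly (fun a => dk (p a)) := upoly_kp (upoly_dl hp) (upoly_ds hp)

theorem upoly_dq : UPoly (fun a => dq (p a)) := upoly_qd (upoly_dl hp) (upoly_dk hp)

theorem upoly_dn1 : UPoly (fun a => dn (p a) + 1) := UPoly.add (upoly_dn hp) (UPoly.const 1)

theorem upoly_dS0 : UPoly (fun a => dS0 (p a)) :=
  UPoly.add (UPoly.mul (UPoly.mul (upoly_dn1 hp) (upoly_dn1 hp)) (upoly_dq hp)) (UPoly.const 1)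

theorem upoly_2dn1 : UPoly (fun a => 2 * (dn (p a) + 1)) :=
  UPoly.mul (UPoly.const 2) (upoly_dn1 hp)

theorem upoly_dL : UPoly (fun a => dL (p a)) :=
  UPoly.add (upoly_dn hp) (UPoly.mul (UPoly.mul (upoly_dS0 hp) (upoly_dq hp)) (upoly_2dn1 hp))

theorem upoly_dnb : UPoly (fun a => dnb (p a)) := by
  have hn := upoly_dn hp
  have hn1 := upoly_dn1 hp
  have hq := upoly_dq hp
  have hq1 : UPoly (fun a => dq (p a) + 1) := UPoly.add hq (UPoly.const 1)
  have hS := upoly_dS0 hp
  have hL := upoly_dL hp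
  have h2n : UPoly (fun a => 2 * dn (p a)) := UPoly.mul (UPoly.const 2) hn
  have hA : UPoly (fun a => (dn (p a) + 1) * (dq (p a) + 1) * (2 * dn (p a) + 2) +
      2 * dn (p a) + 40) :=
    UPoly.add (UPoly.add (UPoly.mul (UPoly.mul hn1 hq1) (UPoly.add h2n (UPoly.const 2))) h2n)
      (UPoly.const 40)
  have hB : UPoly (fun a => dL (p a) * (((dn (p a) + 1) * (dq (p a) + 1) * (2 * dn (p a) + 2) +
      2 * dn (p a) + 40) * (dL (p a) + 1) + 1)) :=
    UPoly.mul hL (UPoly.add (UPoly.mul hA (UPoly.add hL (UPoly.const 1))) (UPoly.const 1))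
  have hC : UPoly (fun a => (dn (p a) + 1) * dS0 (p a) *
      (dn (p a) + 1 + (dn (p a) + 1) * (dq (p a) + 1))) :=
    UPoly.mul (UPoly.mul hn1 hS) (UPoly.add hn1 (UPoly.mul hn1 hq1))
  exact UPoly.add (UPoly.add hB hC) (UPoly.const 1)

theorem upoly_U1 : UPoly (fun a => U1 (p a)) :=
  upoly_u1 (upoly_dn hp) (upoly_dl hp) (upoly_ds hp)

theorem upoly_U2 : UPoly (fun a => U2 (p a)) :=
  upoly_u2 (upoly_dn hp) (upoly_dl hp) (upoly_ds hp)

theorem upoly_U3 : UPoly (fun a => U3 (p a)) :=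
  UPoly.add (UPoly.mul (upoly_dq hp) (UPoly.add (upoly_dn hp) (UPoly.const 3))) (UPoly.const 4)

theorem upoly_U4 : UPoly (fun a => U4 (p a)) := by
  have hB : UPoly (fun a => dq (p a) + dS0 (p a) * dq (p a) + 1) :=
    UPoly.add (UPoly.add (upoly_dq hp) (UPoly.mul (upoly_dS0 hp) (upoly_dq hp))) (UPoly.const 1)
  exact UPoly.add (upoly_U3 hp) (UPoly.add (UPoly.add (upoly_dnb hp) (upoly_dL hp))
    (UPoly.mul (upoly_2dn1 hp) hB))

/-! ### The indices -/

theorem upoly_iV : UPoly (fun a => iV (p a)) :=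
  UPoly.add (upoly_dn hp) (UPoly.mul (upoly_dn1 hp) (upoly_dq hp))

theorem upoly_iW : UPoly (fun a => iW (p a)) := UPoly.add (upoly_iV hp) (UPoly.const 1)

theorem upoly_iA : UPoly (fun a => iA (p a)) := UPoly.add (upoly_iW hp) (upoly_dn1 hp)

theorem upoly_U22 : UPoly (fun a => U2 (p a) + 2) := UPoly.add (upoly_U2 hp) (UPoly.const 2)

theorem upoly_iB : UPoly (fun a => iB (p a)) :=
  UPoly.add (upoly_iA hp) (UPoly.add (upoly_U22 hp) (UPoly.const 1))

theorem upoly_iC : UPoly (fun a => iC (p a)) :=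
  UPoly.add (upoly_iB hp) (UPoly.add (upoly_U4 hp) (UPoly.const 1))

theorem upoly_Lnb : UPoly (fun a => dL (p a) * dnb (p a)) :=
  UPoly.mul (upoly_dL hp) (upoly_dnb hp)

theorem upoly_iP : UPoly (fun a => iP (p a)) := UPoly.add (upoly_iC hp) (upoly_Lnb hp)

theorem upoly_iM : UPoly (fun a => iM (p a)) :=
  UPoly.add (upoly_iP hp) (UPoly.add (upoly_dnb hp) (UPoly.const 1))

theorem upoly_iT : UPoly (fun a => iT (p a)) := UPoly.add (upoly_iM hp) (UPoly.const 1)

theorem upoly_iZ : UPoly (fun a => iZ (p a)) := UPoly.add (upoly_iT hp) (UPoly.const 1)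

theorem upoly_dim : UPoly (fun a => dim (p a)) := UPoly.add (upoly_iZ hp) (upoly_dq hp)

/-! ### The terms -/

theorem poly_cT {k : α → ℕ} (hk : Poly k) : Poly (fun a => cT (p a) (k a)) := by
  refine poly_tmul (poly_tvar (UPoly.add (upoly_iB hp) (upoly_U4 hp)).toPoly) (poly_sumT
    (Poly.map (F := fun a r => Tm.mul (Tm.var (iP (p a) + r))
      (Tm.var (iC (p a) + k a * dnb (p a) + r))) (upoly_dnb hp).range ?_))
  have hP : Poly (fun a => iP (p a)) := (upoly_iP hp).toPoly
  have hC : Poly (fun a => iC (p a)) := (upoly_iC hp).toPoly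
  have hN : Poly (fun a => dnb (p a)) := (upoly_dnb hp).toPoly
  have h1 : Poly (fun q : α × ℕ => iP (p q.1) + q.2) :=
    Poly.add (up (f := fun a => iP (p a)) hP) sn
  have h0 : Poly (fun a => iC (p a) + k a * dnb (p a)) := Poly.add hC (Poly.mul hk hN)
  have h2 : Poly (fun q : α × ℕ => iC (p q.1) + k q.1 * dnb (p q.1) + q.2) :=
    Poly.add (up (f := fun a => iC (p a) + k a * dnb (p a)) h0) sn
  exact poly_tmul (poly_tvar h1) (poly_tvar h2)

theorem poly_tD : Poly (fun a => tD (p a)) :=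
  poly_dcst (poly_tvar (UPoly.add (upoly_iA hp) (upoly_U1 hp)).toPoly)

theorem poly_tC : Poly (fun a => tC (p a)) := by
  have h := poly_tvar (UPoly.add (upoly_iA hp) (upoly_U2 hp)).toPoly
  exact poly_dcst (poly_tadd h h)

theorem poly_tB : Poly (fun a => tB (p a)) :=
  poly_dcst (poly_tvar (UPoly.add (upoly_iA hp) (upoly_U22 hp)).toPoly)

theorem poly_tβ : Poly (fun a => tβ (p a)) :=
  poly_dcst (poly_tvar (UPoly.add (upoly_iB hp) (upoly_U3 hp)).toPoly)

omit hp in
theorem poly_delta {i j : α → ℕ} (hi : Poly i) (hj : Poly j) :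
    Poly (fun a => if i a = j a then Tm.one else Tm.zero) :=
  Poly.ite (Poly.decide_eq hi hj) (Poly.const _) (Poly.const _)

omit hp in
theorem poly_tX {k b : α → ℕ} (hk : Poly k) (hb : Poly b) : Poly (fun a => tX (k a) (b a)) :=
  Poly.pair (poly_tvar hb) (poly_delta hb hk)

theorem poly_tY {i k b : α → ℕ} (hi : Poly i) (hk : Poly k) (hb : Poly b) :
    Poly (fun a => tY (p a) (i a) (k a) (b a)) :=
  Poly.pair (poly_tvar (Poly.add (Poly.add (upoly_dn hp).toPoly (Poly.mul hi
    (upoly_dq hp).toPoly)) hb)) (poly_delta (Poly.add (upoly_dn hp).toPoly hb) hk)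

theorem poly_tZ {b : α → ℕ} (hb : Poly b) : Poly (fun a => tZ (p a) (b a)) :=
  poly_dcst (poly_tvar (Poly.add (upoly_iZ hp).toPoly hb))

variable {o : α → Option ℕ} (ho : Poly o) {k : α → ℕ} (hk : Poly k)

include ho hk

theorem poly_tU {b : α → ℕ} (hb : Poly b) :
    Poly (fun a => tU (p a) (o a) (k a) (b a)) := by
  refine (Poly.optCases (g := fun a => tZ (p a) (b a))
    (h := fun a i => tY (p a) i (k a) (b a)) ho (poly_tZ hp hb)
    (poly_tY (up hp) sn (up hk) (up hb))).congr fun a => ?_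
  cases o a <;> rfl

theorem poly_tPick {i : α → ℕ} (hi : Poly i) :
    Poly (fun a => tPick (p a) (o a) (k a) (i a)) := by
  have hi2 : Poly (fun a => i a / 2) := Poly.div hi (Poly.const 2)
  have h1 : Poly (fun a => decide (i a % 2 = 0)) :=
    Poly.decide_eq (Poly.mod hi (Poly.const 2)) (Poly.const 0)
  have h2 : Poly (fun a => decide (i a / 2 ∈ (p a).1)) := Poly.decide_mem hi2 (Poly.fst hp)
  refine Poly.ite (Poly.decide_and h1 h2) ?_ ?_
  · exact poly_dmul (poly_tU hp ho hk (Poly.const 0)) (poly_dmul (poly_tD hp)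
      (poly_tX hk (poly_idxOf (Poly.fst hp) hi2)))
  · exact poly_tU hp ho hk (Poly.add (poly_idxOf (poly_vS hp) hi) (Poly.const 1))

theorem poly_tCerr {c : α → ER.Con} (hc : Poly c) :
    Poly (fun a => tCerr (p a) (o a) (k a) (c a)) := by
  have h0 : Poly (fun a => (c a).code) := poly_con_code hc
  have d0 : Poly (fun a => decide ((c a).code.1 = 0)) :=
    Poly.decide_eq (Poly.fst h0) (Poly.const 0)
  have d1 : Poly (fun a => decide ((c a).code.1 = 1)) :=
    Poly.decide_eq (Poly.fst h0) (Poly.const 1)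
  have e1 := poly_tPick hp ho hk (Poly.fst (Poly.snd h0))
  have e2 := poly_tPick hp ho hk (Poly.fst (Poly.snd (Poly.snd h0)))
  have e3 := poly_tPick hp ho hk (Poly.snd (Poly.snd (Poly.snd h0)))
  have hw := poly_tU hp ho hk (Poly.const 0)
  exact Poly.ite d0 (poly_dmul hw (poly_dsub e1 hw)) (Poly.ite d1
    (poly_dmul hw (poly_dsub (poly_dadd e1 e2) e3)) (poly_dsub (poly_dmul e1 e2)
      (poly_dmul hw e3)))

theorem poly_tQ : Poly (fun a => tQ (p a) (o a) (k a)) :=
  poly_dsum (Poly.map (F := fun a c => dsq (tCerr (p a) (o a) (k a) c)) (poly_nS hp)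
    (poly_dsq (poly_tCerr (up hp) (up ho) (up hk) sn)))

theorem poly_tH {j : α → ℕ} (hj : Poly j) : Poly (fun a => tH (p a) (o a) (k a) (j a)) :=
  Poly.ite (Poly.decide_eq hj (Poly.const 0)) (poly_tU hp ho hk (Poly.const 0))
    (poly_tU hp ho hk (Poly.add (Poly.add (upoly_dl hp).toPoly (Poly.const 1)) hj))

theorem poly_tPen {t : α → P2} (ht : Poly t) :
    Poly (fun a => tPen (p a) (o a) (k a) (t a)) := by
  refine poly_dadd (poly_dsq (poly_dsub (poly_dsumR
    (F := fun a b => dsq (tU (p a) (o a) (k a) b)) (upoly_dq hp) ?_)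
      (poly_dmul (poly_dcst (poly_numT (upoly_dq hp).toPoly)) (poly_dsq ht)))) (poly_dsumR
    (F := fun a j => dsq (dsub (dmul (tH (p a) (o a) (k a) (j + 1)) (t a))
      (dsq (tH (p a) (o a) (k a) j)))) (upoly_dk hp) ?_)
  · exact poly_dsq (poly_tU (up hp) (up ho) (up hk) sn)
  · exact poly_dsq (poly_dsub (poly_dmul (poly_tH (up hp) (up ho) (up hk)
      (Poly.add sn (Poly.const 1))) (up ht)) (poly_dsq (poly_tH (up hp) (up ho) (up hk) sn)))

theorem poly_tG {t : α → P2} (ht : Poly t) : Poly (fun a => tG (p a) (o a) (k a) (t a)) :=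
  poly_dadd (poly_dsq (poly_dsq ht)) (poly_dmul (poly_tC hp) (poly_dadd (poly_dsub
    (poly_dmul (poly_tD hp) (poly_tQ hp ho hk)) (poly_dmul (poly_tH hp ho hk
      (upoly_dk hp).toPoly) (poly_dmul ht (poly_dsq ht)))) (poly_dmul (poly_tB hp)
        (poly_tPen hp ho hk ht))))

theorem poly_tZs {s : α → ℕ} (hs : Poly s) : Poly (fun a => tZs (p a) (o a) (k a) (s a)) := by
  refine poly_dsumR (F := fun a b => dmul (dcst (tpow (numT (s a)) (min b (dq (p a)))))
    (tU (p a) (o a) (k a) b)) (upoly_dq hp) ?_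
  have hm : UPoly (fun q : α × ℕ => min q.2 (dq (p q.1))) :=
    UPoly.of_le (Poly.min sn (up (upoly_dq hp).toPoly)) (uup (upoly_dq hp))
      fun _ => min_le_right _ _
  exact poly_dmul (poly_dcst (poly_tpow (up (poly_numT hs)) hm))
    (poly_tU (up hp) (up ho) (up hk) sn)

theorem poly_tMn {b : α → ℕ} (hb : Poly b) : Poly (fun a => tMn (p a) (o a) (k a) (b a)) :=
  Poly.ite (Poly.decide_eq hb (Poly.const 0)) (Poly.const _) (poly_tU hp ho hk hb)

theorem poly_tPcT {s b d : α → ℕ} (hs : Poly s) (hb : Poly b) (hd : Poly d) :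
    Poly (fun a => dmul (dcst (cT (p a) (dn (p a) +
      ((s a * dq (p a) + b a) * (2 * (dn (p a) + 1)) + d a))))
        (dmul (tMn (p a) (o a) (k a) (b a))
          (dpow (tZs (p a) (o a) (k a) (s a)) (min (d a) (2 * (dn (p a) + 1)))))) := by
  have hm : UPoly (fun a => min (d a) (2 * (dn (p a) + 1))) :=
    UPoly.of_le (Poly.min hd (upoly_2dn1 hp).toPoly) (upoly_2dn1 hp) fun _ => min_le_right _ _
  exact poly_dmul (poly_dcst (poly_cT hp (Poly.add (upoly_dn hp).toPoly (Poly.add (Poly.mul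
    (Poly.add (Poly.mul hs (upoly_dq hp).toPoly) hb) (upoly_2dn1 hp).toPoly) hd))))
    (poly_dmul (poly_tMn hp ho hk hb) (poly_dpow (poly_tZs hp ho hk hs) hm))

theorem poly_tPcD {s b : α → ℕ} (hs : Poly s) (hb : Poly b) :
    Poly (fun a => dsum ((List.range (2 * (dn (p a) + 1))).map fun d =>
      dmul (dcst (cT (p a) (dn (p a) +
      ((s a * dq (p a) + b a) * (2 * (dn (p a) + 1)) + d))))
        (dmul (tMn (p a) (o a) (k a) (b a))
          (dpow (tZs (p a) (o a) (k a) (s a)) (min d (2 * (dn (p a) + 1))))))) :=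
  poly_dsumR (F := fun a d => dmul (dcst (cT (p a) (dn (p a) +
      ((s a * dq (p a) + b a) * (2 * (dn (p a) + 1)) + d))))
        (dmul (tMn (p a) (o a) (k a) (b a))
          (dpow (tZs (p a) (o a) (k a) (s a)) (min d (2 * (dn (p a) + 1)))))) (upoly_2dn1 hp)
    (poly_tPcT (up hp) (up ho) (up hk) (up hs) (up hb) sn)

theorem poly_tPcB {s : α → ℕ} (hs : Poly s) :
    Poly (fun a => dsum ((List.range (dq (p a))).map fun b =>
      dsum ((List.range (2 * (dn (p a) + 1))).map fun d =>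
      dmul (dcst (cT (p a) (dn (p a) +
      ((s a * dq (p a) + b) * (2 * (dn (p a) + 1)) + d))))
        (dmul (tMn (p a) (o a) (k a) b)
          (dpow (tZs (p a) (o a) (k a) (s a)) (min d (2 * (dn (p a) + 1)))))))) :=
  poly_dsumR (F := fun a b => dsum ((List.range (2 * (dn (p a) + 1))).map fun d =>
      dmul (dcst (cT (p a) (dn (p a) +
      ((s a * dq (p a) + b) * (2 * (dn (p a) + 1)) + d))))
        (dmul (tMn (p a) (o a) (k a) b)
          (dpow (tZs (p a) (o a) (k a) (s a)) (min d (2 * (dn (p a) + 1))))))) (upoly_dq hp)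
    (poly_tPcD (up hp) (up ho) (up hk) (up hs) sn)

theorem poly_tPc : Poly (fun a => tPc (p a) (o a) (k a)) :=
  poly_dsumR (F := fun a s => dsum ((List.range (dq (p a))).map fun b =>
      dsum ((List.range (2 * (dn (p a) + 1))).map fun d =>
      dmul (dcst (cT (p a) (dn (p a) +
      ((s * dq (p a) + b) * (2 * (dn (p a) + 1)) + d))))
        (dmul (tMn (p a) (o a) (k a) b)
          (dpow (tZs (p a) (o a) (k a) s) (min d (2 * (dn (p a) + 1)))))))) (upoly_dS0 hp)
    (poly_tPcB (up hp) (up ho) (up hk) sn)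

theorem poly_tF0 : Poly (fun a => tF0 (p a) (o a) (k a)) := by
  have h2 : UPoly (fun a => 2 * dn (p a) + 4) :=
    UPoly.add (UPoly.mul (UPoly.const 2) (upoly_dn hp)) (UPoly.const 4)
  refine poly_dsub (poly_dadd (poly_tG hp ho hk (Poly.const _)) (poly_dmul (poly_tβ hp)
    (poly_dsumR (F := fun a b => dpow (tU (p a) (o a) (k a) b) (2 * dn (p a) + 4))
      (upoly_dq hp) ?_))) (poly_dsumR (F := fun a b => dsq (tX (k a) b)) (upoly_dn hp) ?_)
  · exact poly_dpow (poly_tU (up hp) (up ho) (up hk) sn) (uup h2)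
  · exact poly_dsq (poly_tX (up hk) sn)

theorem poly_tF : Poly (fun a => tF (p a) (o a) (k a)) := by
  refine poly_dadd (poly_tF0 hp ho hk) (poly_dadd (poly_dsumR
    (F := fun a b => dmul (dcst (cT (p a) b)) (tX (k a) b)) (upoly_dn hp) ?_)
      (poly_tPc hp ho hk))
  exact poly_dmul (poly_dcst (poly_cT (up hp) sn)) (poly_tX (up hk) sn)

end

/-! ### The formula -/

section

variable {α : Type} [TEnc α]

theorem poly_chain {b k : α → ℕ} (hb : Poly b) (hk : UPoly k) :
    Poly (fun a => chain (b a) (k a)) := by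
  refine Poly.map (F := fun a j => Fm.eq (Tm.var (b a + j + 1)) (sqT (Tm.var (b a + j))))
    hk.range ?_
  have h1 : Poly (fun q : α × ℕ => b q.1 + q.2) := Poly.add (up hb) sn
  exact poly_feq (poly_tvar (Poly.add h1 (Poly.const 1))) (poly_sqT (poly_tvar h1))

theorem poly_dbl {b k : α → ℕ} (hb : Poly b) (hk : UPoly k) :
    Poly (fun a => dbl (b a) (k a)) := by
  refine Poly.map (F := fun a j => Fm.eq (Tm.var (b a + j + 1))
    (Tm.add (Tm.var (b a + j)) (Tm.var (b a + j)))) hk.range ?_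
  have h1 : Poly (fun q : α × ℕ => b q.1 + q.2) := Poly.add (up hb) sn
  exact poly_feq (poly_tvar (Poly.add h1 (Poly.const 1)))
    (poly_tadd (poly_tvar h1) (poly_tvar h1))

variable {p : α → Inp} (hp : Poly p)

include hp

theorem poly_fC : Poly (fun a => fC (p a)) := by
  have hA := (upoly_iA hp).toPoly
  have hB := (upoly_iB hp).toPoly
  have hP := (upoly_iP hp).toPoly
  refine Poly.cons (poly_feq (poly_tvar hA) (Poly.const _)) (Poly.append
    (poly_chain hA (upoly_U22 hp)) (Poly.cons (poly_feq (poly_tadd (poly_tvar hB) (poly_tvar hB))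
      (Poly.const _)) (Poly.append (poly_chain hB (upoly_U4 hp)) (Poly.cons
        (poly_feq (poly_tvar hP) (Poly.const _)) (Poly.append (poly_dbl hP (upoly_dnb hp))
          (Poly.append (Poly.map (F := fun a r =>
            Fm.eq (sqT (Tm.var (iC (p a) + r))) (Tm.var (iC (p a) + r))) (upoly_Lnb hp).range ?_)
            (Poly.map (F := fun _ b => Fm.le (sqT (Tm.var b)) (numT 4))
              (upoly_dn hp).range ?_)))))))
  · have h := poly_tvar (Poly.add (up (γ := ℕ) (upoly_iC hp).toPoly) sn)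
    exact poly_feq (poly_sqT h) h
  · exact poly_fle (poly_sqT (poly_tvar sn)) (Poly.const _)

theorem poly_fJ {j : α → ℕ} (hj : Poly j) : Poly (fun a => fJ (p a) (j a)) := by
  have hW : Poly (fun q : α × ℕ => Tm.var (iW (p q.1) + q.2)) :=
    poly_tvar (Poly.add (up (upoly_iW hp).toPoly) sn)
  have hn := (upoly_dn hp).toPoly
  have hq := (upoly_dq hp).toPoly
  have hso : Poly (fun q : (α × ℕ) × ℕ => Option.some q.1.2) := Poly.some (Poly.snd (up Poly.id))
  refine Poly.cons (poly_feq (poly_sumT (Poly.map (F := fun a i => Tm.var (iW (p a) + i))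
    (upoly_dn1 hp).range hW)) (Poly.const _)) (Poly.append (Poly.map (F := fun a i =>
      if i ≤ j a then
        conj (Fm.eq (tF (p a) (some i) (dn (p a) + dq (p a))).1 (Tm.var (iV (p a))) ::
          (List.range (dq (p a))).map fun b => Fm.eq (tF (p a) (some i) (dn (p a) + b)).2 Tm.zero)
      else conj (Fm.eq (Tm.var (iW (p a) + i)) Tm.zero ::
          (List.range (dq (p a))).map fun b => Fm.eq (Tm.var (dn (p a) + i * dq (p a) + b))
            Tm.zero)) (upoly_dn1 hp).range ?_) (Poly.map (F := fun a b =>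
      Fm.eq (sumT ((List.range (dn (p a) + 1)).map fun i =>
      Tm.mul (Tm.var (iW (p a) + i)) (tF (p a) (some i) b).2)) Tm.zero) (upoly_dn hp).range ?_))
  · refine Poly.ite (Poly.decide_le sn (up hj)) (poly_conj (Poly.cons (poly_feq (Poly.fst
      (poly_tF (up hp) (Poly.some sn) (up (Poly.add hn hq))))
        (poly_tvar (up (upoly_iV hp).toPoly))) (Poly.map (F := fun (q : α × ℕ) b =>
          Fm.eq (tF (p q.1) (some q.2) (dn (p q.1) + b)).2 Tm.zero) (uup (upoly_dq hp)).range ?_)))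
      (poly_conj (Poly.cons (poly_feq hW (Poly.const _)) (Poly.map (F := fun (q : α × ℕ) b =>
          Fm.eq (Tm.var (dn (p q.1) + q.2 * dq (p q.1) + b)) Tm.zero)
            (uup (upoly_dq hp)).range ?_)))
    · exact poly_feq (Poly.snd (poly_tF (up (up hp)) hso (Poly.add (up (up hn)) sn)))
        (Poly.const _)
    · exact poly_feq (poly_tvar (Poly.add (up (Poly.add (up hn) (Poly.mul sn (up hq)))) sn))
        (Poly.const _)
  · refine poly_feq (poly_sumT (Poly.map (F := fun (q : α × ℕ) i =>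
      Tm.mul (Tm.var (iW (p q.1) + i)) (tF (p q.1) (some i) q.2).2) (uup (upoly_dn1 hp)).range
        ?_)) (Poly.const _)
    exact poly_tmul (poly_tvar (Poly.add (up (up (upoly_iW hp).toPoly)) sn))
      (Poly.snd (poly_tF (up (up hp)) (Poly.some sn) (up sn)))

theorem poly_fD : Poly (fun a => fD (p a)) := by
  have hM := poly_tvar (upoly_iM hp).toPoly
  refine poly_conj (Poly.append (poly_fC hp) (Poly.cons (poly_feq (poly_prodT (Poly.map
    (F := fun a j => subT (Tm.var (iM (p a))) (numT j)) (upoly_dn1 hp).range ?_)) (Poly.const _))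
      (Poly.map (F := fun a j => Fm.or (Fm.not (Fm.eq (Tm.var (iM (p a))) (numT j)))
        (conj (fJ (p a) j))) (upoly_dn1 hp).range ?_)))
  · exact poly_subT (up hM) (poly_numT sn)
  · exact poly_for (poly_fnot (poly_feq (up hM) (poly_numT sn))) (poly_conj (poly_fJ (up hp) sn))

theorem poly_fK : Poly (fun a => fK (p a)) := by
  have hT := poly_tvar (upoly_iT hp).toPoly
  have hn := (upoly_dn hp).toPoly
  have hq := (upoly_dq hp).toPoly
  have hZ : Poly (fun q : α × ℕ => Tm.var (iZ (p q.1) + q.2)) :=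
    poly_tvar (Poly.add (up (upoly_iZ hp).toPoly) sn)
  refine poly_for (poly_conj (Poly.cons (poly_feq hT (Poly.const _)) (Poly.map
    (F := fun a b => Fm.eq (Tm.var (iZ (p a) + b)) Tm.zero) (upoly_dq hp).range
      (poly_feq hZ (Poly.const _))))) (poly_conj (Poly.cons (poly_flt (Poly.const _) hT)
        (Poly.cons (poly_fle (Poly.fst (poly_tG hp (Poly.const none) (Poly.add hn hq)
          (poly_dcst hT))) (Poly.const _)) (Poly.map (F := fun a b =>
            Fm.le (sqT (Tm.var (iZ (p a) + b)))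
              (Tm.mul (numT (dq (p a))) (sqT (Tm.var (iT (p a)))))) (upoly_dq hp).range ?_))))
  exact poly_fle (poly_sqT hZ) (poly_tmul (up (poly_numT hq)) (poly_sqT (up hT)))

theorem poly_fS : Poly (fun a => fS (p a)) := poly_fand (poly_fD hp) (poly_fK hp)

/-- The reduction is computable in polynomial time. -/
theorem poly_inst' : Poly (fun a => inst (p a)) := Poly.pair (upoly_dim hp) (poly_fS hp)

end

/-- The reduction is computable in polynomial time. -/
theorem poly_inst : Poly (fun p : Inp => inst p) := poly_inst' Poly.id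

end Pool.Agent.NPC.T9h75Iso
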